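import Pool.Agent.Lib_MP_a77ffe_ins.Core

/-!
# Every triangulation of real projective 5-space has at least 23 vertices
-/

set_option autoImplicit false

namespace Pool.Agent.Results.MP_a77ffe_gt.AtLeast23

open Pool.Agent.RP5.Ins

/-- Every triangulation of real projective 5-space has at least 23 vertices: if the geometric
realisation of an abstract simplicial complex `K` with finite vertex set `V` is homeomorphic to
`RP 5`, then `V` has at least 23 elements. -/
theorem result {V : Type*} [Fintype V] (K : AbstractSimplicialComplex V)
    (h : Nonempty (realisation K ≃ₜ RP 5)) : 23 ≤ Fintype.card V :=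
  at_least_23 K h

end Pool.Agent.Results.MP_a77ffe_gt.AtLeast23
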